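import Pool.Agent.W622.ETC.Stm

set_option autoImplicit false

/-! Project ELT, part AG2: the case `p = 2`. -/

namespace Pool.Agent.W490.ELT

open Pool.Agent.W622.ETC Module

section
variable {V : Type} [AddCommGroup V] [Module (ZMod 2) V] [Finite V]

lemma block_om (hOM : S_OM) {A : Fam V} (hC : CB A) {X : DSub V} (hX : Block A X) :
    om A X ∈ A ∧ Alt (om A X) ∧ sp (om A X) = X := by
  have hl : LocBlock A X := by
    rcases hX with h | h
    · exact absurd h.1 (hC.nc X)
    · exact h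
  obtain ⟨h1, _, h3, _⟩ := hOM V A X hC.mc.alt hl
  exact ⟨h1, hC.mc.alt _ h1, h3⟩

lemma two_inj (hOM : S_OM) {A : Fam V} (hC : CB A) {X Y : DSub V} (hX : Block A X)
    (hY : Block A Y) (hd : Disjoint X Y) (ht : X ⊔ Y = ⊤) {v : V}
    (h : (om A X + om A Y) v = 0) : v = 0 := by
  obtain ⟨x1, x2, x3⟩ := block_om hOM hC hX
  obtain ⟨y1, y2, y3⟩ := block_om hOM hC hY
  have hs : sp (om A X + om A Y) = ⊤ := by
    rw [sp_add x2 y2 (by rw [x3, y3]; exact hd), x3, y3, ht]
  rw [← Module.forall_dual_apply_eq_zero_iff (ZMod 2)]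
  intro f
  have hf : f ∈ sp (om A X + om A Y) := hs ▸ Submodule.mem_top
  exact ((x2.add y2).mem_sp_iff.mp hf) v h

lemma two_surj (hOM : S_OM) {A : Fam V} (hC : CB A) {X Y : DSub V} (hX : Block A X)
    (hY : Block A Y) (hd : Disjoint X Y) (ht : X ⊔ Y = ⊤) (f : Dl V) :
    ∃ v : V, (om A X + om A Y) v = f := by
  obtain ⟨x1, x2, x3⟩ := block_om hOM hC hX
  obtain ⟨y1, y2, y3⟩ := block_om hOM hC hY
  have hs : sp (om A X + om A Y) = ⊤ := by
    rw [sp_add x2 y2 (by rw [x3, y3]; exact hd), x3, y3, ht]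
  have hf : f ∈ sp (om A X + om A Y) := hs ▸ Submodule.mem_top
  exact hf

end

theorem t_AG2 (hCB1 : S_CB1) (hOM : S_OM) : S_AG2 := by
  classical
  intro V _ _ _ A e hC hgood he hn hdim h3 h2 hT
  have hpair : ∀ X Y : DSub V, Block A X → Block A Y → X ≠ Y → Disjoint X Y ∧ X ⊔ Y = ⊤ := by
    intro X Y hX hY hne
    have := hT {X, Y} (by
      intro Z hZ
      rw [Finset.mem_insert, Finset.mem_singleton] at hZ
      rcases hZ with rfl | rfl
      · exact hX
      · exact hY) (Finset.card_pair hne)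
    rw [Finset.coe_pair, sSup_pair] at this
    exact ⟨(sSupIndep_pair hne).mp this.1, this.2⟩
  obtain ⟨X₁, X₂, X₃, hX₁, hX₂, hX₃, h12, h13, h23⟩ := (Set.two_lt_ncard_iff (Set.toFinite _)).mp
    (show 2 < {X : DSub V | Block A X}.ncard by omega)
  have hX₁ : Block A X₁ := hX₁
  have hX₂ : Block A X₂ := hX₂
  have hX₃ : Block A X₃ := hX₃
  -- every nonzero functional is in a block
  have hcov : ∀ h : Dl V, h ≠ 0 → ∃ X, Block A X ∧ h ∈ X := by
    intro h hh
    obtain ⟨d12, t12⟩ := hpair X₁ X₂ hX₁ hX₂ h12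
    obtain ⟨d13, t13⟩ := hpair X₁ X₃ hX₁ hX₃ h13
    obtain ⟨d23, t23⟩ := hpair X₂ X₃ hX₂ hX₃ h23
    obtain ⟨v, hv⟩ := two_surj hOM hC hX₁ hX₂ d12 t12 h
    obtain ⟨v', hv'⟩ := two_surj hOM hC hX₁ hX₃ d13 t13 h
    have hvv : v ≠ v' := by
      rintro rfl
      have h0 : (om A X₂ + om A X₃) v = 0 := by
        have e1 : (om A X₂ + om A X₃) v = (om A X₁ + om A X₂) v + (om A X₁ + om A X₃) v := by
          simp only [LinearMap.add_apply]
          have := vadd (om A X₁ v)
          calc om A X₂ v + om A X₃ v = (om A X₁ v + om A X₁ v) + (om A X₂ v + om A X₃ v) := by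
                rw [this, zero_add]
            _ = _ := by abel
        rw [e1, hv, hv', vadd]
      have hv0 := two_inj hOM hC hX₂ hX₃ d23 t23 h0
      rw [hv0, map_zero] at hv
      exact hh hv.symm
    have hb : v + v' ≠ 0 := fun h0 => hvv (add_eq_zero'.mp h0)
    have m1 : om A X₁ + om A X₂ ∈ A :=
      A.add_mem (block_om hOM hC hX₁).1 (block_om hOM hC hX₂).1
    have m2 : om A X₁ + om A X₃ ∈ A :=
      A.add_mem (block_om hOM hC hX₁).1 (block_om hOM hC hX₃).1
    obtain ⟨ζ, hζ, z1, z2⟩ := hC.mc.her.linked _ m1 _ m2 v v' (by rw [hv, hv'])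
    rw [hv] at z1 z2
    have hζb : ζ ∈ res A (ann (v + v')) := by
      rw [mem_res_ann hC.mc.alt]
      exact ⟨hζ, by rw [map_add, z1, z2, vadd]⟩
    obtain ⟨⟨_, hA, _⟩, _, _⟩ := hCB1 V A (v + v') hC hb
    rw [hA] at hζb
    by_cases hem : ∃ X, X ∈ BL A (v + v')
    · obtain ⟨X, hX⟩ := hem
      refine ⟨X, hX.1, ?_⟩
      have hle : (⨆ Y ∈ BL A (v + v'), res (res A (ann (v + v'))) Y) ≤
          res (res A (ann (v + v'))) X := by
        refine iSup₂_le fun Y hY => ?_
        by_cases hXY : Y = X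
        · rw [hXY]
        · exfalso
          obtain ⟨_, ht⟩ := hpair Y X hY.1 hX.1 hXY
          apply ann_ne_top hb
          rw [eq_top_iff, ← ht]
          exact sup_le hY.2 hX.2
      have := (hle hζb).2 v
      rwa [z1] at this
    · exfalso
      have hbot : (⨆ Y ∈ BL A (v + v'), res (res A (ann (v + v'))) Y) = ⊥ := by
        rw [eq_bot_iff]
        refine iSup₂_le fun Y hY => ?_
        exact absurd ⟨Y, hY⟩ hem
      rw [hbot, Submodule.mem_bot] at hζb
      rw [hζb] at z1
      exact hh z1.symm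
  -- counting
  have : Finite (Dl V) := inferInstance
  letI : Fintype (Dl V) := Fintype.ofFinite _
  letI : Fintype (DSub V) := Fintype.ofFinite _
  set F : Finset (DSub V) := Finset.univ.filter (fun X => Block A X) with hF
  have hFc : {X : DSub V | Block A X}.ncard = F.card := by
    rw [← Set.ncard_coe_finset]
    congr 1
    ext X
    simp [hF]
  have hun : (Finset.univ : Finset (Dl V)).erase 0 =
      F.biUnion (fun X => (Finset.univ.filter (fun h : Dl V => h ∈ X)).erase 0) := by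
    ext h
    simp only [Finset.mem_erase, Finset.mem_univ, and_true, Finset.mem_biUnion, Finset.mem_filter,
      true_and, hF]
    constructor
    · intro hh
      obtain ⟨X, hX, hhX⟩ := hcov h hh
      exact ⟨X, hX, hh, hhX⟩
    · rintro ⟨X, _, hh, _⟩
      exact hh
  have hcX : ∀ X ∈ F, ((Finset.univ.filter (fun h : Dl V => h ∈ X)).erase 0).card = 2 ^ e - 1 := by
    intro X hX
    have hX' : Block A X := by simpa [hF] using hX
    rw [Finset.card_erase_of_mem (by simp)]
    congr 1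
    have h1 : Nat.card X = 2 ^ e := by
      rw [Module.natCard_eq_pow_finrank (K := ZMod 2), hdim X hX', Nat.card_zmod]
    rw [← h1, Nat.card_eq_fintype_card, Fintype.card_subtype]
  have hc := congrArg Finset.card hun
  rw [Finset.card_biUnion, Finset.sum_congr rfl hcX, Finset.sum_const, smul_eq_mul,
    Finset.card_erase_of_mem (Finset.mem_univ _), Finset.card_univ] at hc
  · have h1 : Fintype.card (Dl V) = 2 ^ (e * 2) := by
      rw [← Nat.card_eq_fintype_card, Module.natCard_eq_pow_finrank (K := ZMod 2),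
        Subspace.dual_finrank_eq, hn, Nat.card_zmod]
    rw [h1] at hc
    rw [hFc] at h2
    obtain ⟨k, hk⟩ := h2
    rw [hk] at hc
    have h4 : 1 < 2 ^ e := Nat.one_lt_two_pow (by omega)
    have h5 : 2 ^ (e * 2) - 1 = (2 ^ e - 1) * (2 ^ e + 1) := by
      rw [pow_mul]
      obtain ⟨t, ht⟩ : ∃ t, 2 ^ e = t + 1 := ⟨2 ^ e - 1, by omega⟩
      rw [ht, Nat.add_sub_cancel]
      have : (t + 1) ^ 2 = t * (t + 1 + 1) + 1 := by ring
      omega
    rw [h5, mul_comm (2 * k)] at hc
    have h6 : 2 ^ e + 1 = 2 * k := Nat.eq_of_mul_eq_mul_left (by omega) hc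
    have h7 : 2 ∣ 2 ^ e := dvd_pow_self 2 (by omega)
    omega
  · intro X hX Y hY hne
    have hX' : Block A X := by simpa [hF] using hX
    have hY' : Block A Y := by simpa [hF] using hY
    rw [Function.onFun, Finset.disjoint_left]
    intro h hhX hhY
    simp only [Finset.mem_erase, Finset.mem_filter, Finset.mem_univ, true_and] at hhX hhY
    exact hhX.1 (Submodule.disjoint_def.mp (hpair X Y hX' hY' hne).1 h hhX.2 hhY.2)

end Pool.Agent.W490.ELT
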